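import Pool.Agent.Run7.h600.OD.ThetaA

/-!
# THETA: differential equations and integrality

The statement is `H809.OD.Theta` (project of helper809).
-/

set_option autoImplicit false

open PowerSeries

namespace H809.OD

/-! ### First coefficients -/

theorem two_eq_C : (2 : ℚ⟦X⟧) = C (2 : ℚ) := (map_ofNat C 2).symm

theorem ofNat_ne_zero' (n : ℕ) [n.AtLeastTwo] : (OfNat.ofNat n : ℚ⟦X⟧) ≠ 0 := by
  rw [← map_ofNat C n, Ne, map_eq_zero_iff _ PowerSeries.C_injective]
  exact OfNat.ofNat_ne_zero n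

theorem coeff_mul_zero (f g : ℚ⟦X⟧) : coeff 0 (f * g) = coeff 0 f * coeff 0 g := by
  simp

theorem coeff_mul_one (f g : ℚ⟦X⟧) :
    coeff 1 (f * g) = coeff 0 f * coeff 1 g + coeff 1 f * coeff 0 g := by
  rw [coeff_mul, Finset.Nat.sum_antidiagonal_eq_sum_range_succ_mk]
  simp [Finset.sum_range_succ]

theorem coeff_add' (n : ℕ) (f g : ℚ⟦X⟧) : coeff n (f + g) = coeff n f + coeff n g := map_add _ _ _

theorem coeff_sub' (n : ℕ) (f g : ℚ⟦X⟧) : coeff n (f - g) = coeff n f - coeff n g := map_sub _ _ _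

theorem coeff_neg' (n : ℕ) (f : ℚ⟦X⟧) : coeff n (-f) = -coeff n f := map_neg _ _

theorem coeff_ofNat_mul (m n : ℕ) [m.AtLeastTwo] (f : ℚ⟦X⟧) :
    coeff n ((OfNat.ofNat m : ℚ⟦X⟧) * f) = (OfNat.ofNat m : ℚ) * coeff n f := by
  rw [← map_ofNat C m, coeff_C_mul]

theorem phi_zero : coeff 0 phi = 1 := by simp [phi]

theorem phi_one : coeff 1 phi = 2 := by
  rw [phi, coeff_mk, if_neg one_ne_zero, if_pos ⟨1, rfl⟩]

theorem w_zero' : coeff 0 w = 1 := by
  rw [w, sq, coeff_mul_zero, phi_zero]
  norm_num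

theorem w_one : coeff 1 w = 4 := by
  rw [w, sq, coeff_mul_one, phi_zero, phi_one]
  norm_num

theorem phi_ne : phi ≠ 0 := by
  intro h
  have := phi_zero
  rw [h] at this
  simp at this

theorem w_ne : w ≠ 0 := by
  intro h
  have := w_zero'
  rw [h] at this
  simp at this

theorem ng_zero (f : ℚ⟦X⟧) : coeff 0 (ng f) = coeff 0 f := by simp [coeff_ng]

theorem ng_one (f : ℚ⟦X⟧) : coeff 1 (ng f) = -coeff 1 f := by simp [coeff_ng]

theorem ng_ne {f : ℚ⟦X⟧} (h : f ≠ 0) : ng f ≠ 0 := by
  intro h0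
  apply h
  rw [← ng_ng f, h0, map_zero]

theorem dbl_inj {f g : ℚ⟦X⟧} (h : dbl f = dbl g) : f = g := by
  ext n
  rw [← coeff_dbl_even, h, coeff_dbl_even]

theorem dbl_ne {f : ℚ⟦X⟧} (h : f ≠ 0) : dbl f ≠ 0 := by
  intro h0
  apply h
  apply dbl_inj
  rw [h0, map_zero]

theorem wi_mul : w * wi = 1 := by
  rw [wi]
  apply PowerSeries.mul_inv_cancel
  have := w_zero'
  rw [coeff_zero_eq_constantCoeff_apply] at this
  rw [this]
  norm_num

theorem coeff_th_zero (f : ℚ⟦X⟧) : coeff 0 (th f) = 0 := by simp [coeff_th]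

theorem coeff_th_one (f : ℚ⟦X⟧) : coeff 1 (th f) = coeff 1 f := by simp [coeff_th]

/-! ### T1 -/

/-- the first differential equation -/
theorem t1 : 4 * (ng phi * th phi - phi * th (ng phi)) =
    phi * ng phi * (phi ^ 4 - ng phi ^ 4) := by
  set a := phi with ha
  set b := ng phi with hb
  set E : ℚ⟦X⟧ := 4 * (b * th a - a * th b) - a * b * (a ^ 4 - b ^ 4) with hE
  suffices h : E = 0 by rw [hE] at h; exact sub_eq_zero.1 h
  -- the functional equation
  have hA : 2 * (dbl a) ^ 2 = a ^ 2 + b ^ 2 := by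
    have := ag1
    rw [ng_w_eq, w, map_pow] at this
    exact this.symm
  have hB : (dbl b) ^ 2 = a * b := by
    have := ag2
    rw [ng_w_eq, map_pow] at this
    exact this.symm
  have hA' : 4 * (dbl a * dbl (th a)) = a * th a + b * th b := by
    have h1 := congrArg th hA
    have h2 : th (2 * (dbl a) ^ 2) = 2 * (2 * (dbl a * (2 * dbl (th a)))) := by
      rw [← th_dbl, sq, Derivation.leibniz, Derivation.leibniz]
      have : th (2 : ℚ⟦X⟧) = 0 := by
        rw [show (2 : ℚ⟦X⟧) = ((2 : ℕ) : ℚ⟦X⟧) by norm_num, Derivation.map_natCast]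
      rw [this]
      simp only [smul_eq_mul]
      ring
    rw [h2, map_add, sq, sq, Derivation.leibniz, Derivation.leibniz] at h1
    simp only [smul_eq_mul] at h1
    have h3 : (2 : ℚ⟦X⟧) ≠ 0 := ofNat_ne_zero' 2
    apply mul_left_cancel₀ h3
    linear_combination h1
  have hB' : 4 * (dbl b * dbl (th b)) = a * th b + b * th a := by
    have h1 := congrArg th hB
    rw [sq, Derivation.leibniz, Derivation.leibniz, th_dbl] at h1
    simp only [smul_eq_mul] at h1
    linear_combination h1
  have hfe : 8 * (dbl (a * b) * dbl E) = (a ^ 2 - b ^ 2) * E := by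
    have h4 : dbl E = 4 * (dbl b * dbl (th a) - dbl a * dbl (th b)) -
        dbl a * dbl b * ((dbl a) ^ 4 - (dbl b) ^ 4) := by
      rw [hE]
      simp only [map_sub, map_mul, map_pow, map_ofNat]
    rw [h4, map_mul, hE]
    have h3 : (4 : ℚ⟦X⟧) ≠ 0 := ofNat_ne_zero' 4
    apply mul_left_cancel₀ h3
    have hA4 : 4 * (dbl a) ^ 4 = (a ^ 2 + b ^ 2) ^ 2 := by rw [← hA]; ring
    have hB4 : (dbl b) ^ 4 = (a * b) ^ 2 := by rw [← hB]; ring
    have e1 : 4 * (8 * (dbl a * dbl b * (4 * (dbl b * dbl (th a) - dbl a * dbl (th b)) -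
        dbl a * dbl b * ((dbl a) ^ 4 - (dbl b) ^ 4)))) =
        32 * ((dbl b) ^ 2 * (4 * (dbl a * dbl (th a))) -
          (dbl a) ^ 2 * (4 * (dbl b * dbl (th b)))) -
        8 * ((dbl a) ^ 2 * (dbl b) ^ 2 * (4 * (dbl a) ^ 4 - 4 * (dbl b) ^ 4)) := by ring
    rw [e1, hA', hB', hB, hA4, hB4]
    linear_combination (-16 * (a * th b + b * th a) - 4 * (a * b) * ((a ^ 2 + b ^ 2) ^ 2 -
      4 * (a * b) ^ 2)) * hA
  -- induction
  have key : ∀ n, coeff n E = 0 := by
    intro n
    induction n using Nat.strong_induction_on with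
    | _ n ih =>
      rcases Nat.lt_or_ge n 2 with hn | hn
      · have hn' : n = 0 ∨ n = 1 := by omega
        have ha0 : coeff 0 a = 1 := phi_zero
        have ha1 : coeff 1 a = 2 := phi_one
        have hb0 : coeff 0 b = 1 := by rw [hb, ng_zero, phi_zero]
        have hb1 : coeff 1 b = -2 := by rw [hb, ng_one, phi_one]
        rcases hn' with rfl | rfl
        · rw [hE, coeff_sub', coeff_ofNat_mul]
          simp only [coeff_sub', coeff_mul_zero, coeff_th_zero, pow_succ, pow_zero,
            one_mul, ha0, hb0]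
          norm_num
        · rw [hE, coeff_sub', coeff_ofNat_mul]
          simp only [coeff_sub', coeff_mul_zero, coeff_mul_one, coeff_th_zero,
            coeff_th_one, pow_succ, pow_zero,
            one_mul, ha0, hb0, ha1, hb1]
          norm_num
      · have h5 := congrArg (coeff (n + 1)) hfe
        rw [coeff_ofNat_mul, coeff_mul, coeff_mul] at h5
        have h6 : ∑ p ∈ Finset.HasAntidiagonal.antidiagonal (n + 1),
            coeff p.1 (dbl (a * b)) * coeff p.2 (dbl E) = 0 := by
          refine Finset.sum_eq_zero fun p hp => ?_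
          rw [Finset.HasAntidiagonal.mem_antidiagonal] at hp
          rw [coeff_dbl E]
          split_ifs with h7
          · rw [ih (p.2 / 2) (by omega), mul_zero]
          · rw [mul_zero]
        have h8 : ∑ p ∈ Finset.HasAntidiagonal.antidiagonal (n + 1),
            coeff p.1 (a ^ 2 - b ^ 2) * coeff p.2 E = 8 * coeff n E := by
          rw [Finset.sum_eq_single (1, n)]
          · congr 1
            simp only [coeff_sub', sq, coeff_mul_one, ha, hb, phi_zero, phi_one, ng_zero, ng_one]
            norm_num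
          · rintro ⟨i, j⟩ hp hne
            rw [Finset.HasAntidiagonal.mem_antidiagonal] at hp
            simp only at hp ⊢
            rcases Nat.lt_or_ge j n with hj | hj
            · rw [ih j hj, mul_zero]
            · have : i = 0 := by
                by_contra hi
                apply hne
                have h1 : i = 1 := by omega
                have h2 : j = n := by omega
                rw [h1, h2]
              subst this
              have : coeff 0 (a ^ 2 - b ^ 2) = 0 := by
                simp only [coeff_sub', sq, coeff_mul_zero, ha, hb, phi_zero, ng_zero]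
                norm_num
              rw [this, zero_mul]
          · intro h
            exfalso
            apply h
            rw [Finset.HasAntidiagonal.mem_antidiagonal]
            show 1 + n = n + 1
            omega
        rw [h6, h8] at h5
        linarith
  ext n
  rw [key n, map_zero]

/-! ### T2 -/

/-- `p = θ w / w` -/
noncomputable def plog : ℚ⟦X⟧ := th w * wi

theorem w_mul_plog : w * plog = th w := by
  rw [plog]
  linear_combination (th w) * wi_mul

theorem ng_w_mul_plog : ng w * ng plog = th (ng w) := by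
  rw [← map_mul, w_mul_plog, th_ng]

theorem th_two : th (2 : ℚ⟦X⟧) = 0 := by
  rw [show (2 : ℚ⟦X⟧) = ((2 : ℕ) : ℚ⟦X⟧) by norm_num, Derivation.map_natCast]

theorem th_four : th (4 : ℚ⟦X⟧) = 0 := by
  rw [show (4 : ℚ⟦X⟧) = ((4 : ℕ) : ℚ⟦X⟧) by norm_num, Derivation.map_natCast]

theorem th_eight : th (8 : ℚ⟦X⟧) = 0 := by
  rw [show (8 : ℚ⟦X⟧) = ((8 : ℕ) : ℚ⟦X⟧) by norm_num, Derivation.map_natCast]

theorem th_mul (f g : ℚ⟦X⟧) : th (f * g) = f * th g + g * th f := by
  rw [Derivation.leibniz]; simp only [smul_eq_mul]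

theorem phi_plog : phi * plog = 2 * th phi := by
  apply mul_left_cancel₀ phi_ne
  have := w_mul_plog
  rw [w, sq, th_mul] at this
  linear_combination this

theorem ng_phi_plog : ng phi * ng plog = 2 * th (ng phi) := by
  rw [← map_mul, phi_plog, map_mul, th_ng, map_ofNat]

theorem plog_sub : 2 * (plog - ng plog) = w ^ 2 - (ng w) ^ 2 := by
  apply mul_left_cancel₀ (mul_ne_zero phi_ne (ng_ne phi_ne))
  rw [ng_w_eq, w]
  linear_combination t1 + 2 * ng phi * phi_plog - 2 * phi * ng_phi_plog

/-- `τ = θ p - p²` -/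
noncomputable def tt : ℚ⟦X⟧ := th plog - plog ^ 2

theorem ng_tt : ng tt = th (ng plog) - (ng plog) ^ 2 := by
  rw [tt, map_sub, map_pow, th_ng]

theorem dbl_ng_w_sq : (dbl (ng w)) ^ 2 = w * ng w := by
  rw [← ag2, ng_w_eq, w]
  ring

theorem dbl_ng_plog : 4 * dbl (ng plog) = plog + ng plog := by
  apply mul_left_cancel₀ (mul_ne_zero w_ne (ng_ne w_ne))
  have h1 : th (dbl (ng w)) = 2 * (dbl (ng w) * dbl (ng plog)) := by
    rw [th_dbl, ← ng_w_mul_plog, map_mul]
  have h2 := congrArg th dbl_ng_w_sq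
  rw [sq, th_mul, h1, th_mul, ← ng_w_mul_plog, ← w_mul_plog] at h2
  have h3 := dbl_ng_w_sq
  linear_combination h2 - 4 * dbl (ng plog) * h3

theorem tt_fe2 : 64 * dbl (ng tt) = 8 * (tt + ng tt) + (w ^ 2 - (ng w) ^ 2) ^ 2 := by
  have h1 : 8 * dbl (th (ng plog)) = th plog + th (ng plog) := by
    have h2 := congrArg th dbl_ng_plog
    rw [th_mul, th_four, th_dbl, map_add] at h2
    linear_combination h2
  have h3 : ng tt = th (ng plog) - (ng plog) ^ 2 := ng_tt
  have h4 : dbl (ng tt) = dbl (th (ng plog)) - (dbl (ng plog)) ^ 2 := by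
    rw [h3, map_sub, map_pow]
  have h5 := dbl_ng_plog
  have h6 := plog_sub
  have h7 : (w ^ 2 - (ng w) ^ 2) ^ 2 = 4 * (plog - ng plog) ^ 2 := by rw [← h6]; ring
  have h8 : 16 * (dbl (ng plog)) ^ 2 = (plog + ng plog) ^ 2 := by rw [← h5]; ring
  rw [h4, h7, h3, tt]
  linear_combination 8 * h1 - 4 * h8

theorem tt_fe1 : 8 * ((w + ng w) * dbl tt) = 2 * (w * tt + ng w * ng tt) +
    w * ng w * (w + ng w) * (w - ng w) ^ 2 := by
  have hS : w + ng w ≠ 0 := by
    rw [ag1]
    exact mul_ne_zero (ofNat_ne_zero' 2) (dbl_ne w_ne)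
  have h1 : 2 * (dbl plog * (w + ng w)) = w * plog + ng w * ng plog := by
    have h2 := congrArg th ag1
    rw [map_add, ← w_mul_plog, ← ng_w_mul_plog, th_mul, th_two, th_dbl, ← w_mul_plog, map_mul] at h2
    have h3 := ag1
    linear_combination -h2 + 2 * (dbl plog) * h3
  have h4 := congrArg th h1
  rw [th_mul, th_two, th_mul, th_dbl, map_add, map_add, th_mul w, th_mul (ng w),
    ← w_mul_plog, ← ng_w_mul_plog] at h4
  have h5 : dbl tt = dbl (th plog) - (dbl plog) ^ 2 := by rw [tt, map_sub, map_pow]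
  have h6 : ng tt = th (ng plog) - (ng plog) ^ 2 := ng_tt
  have h7 := plog_sub
  apply mul_left_cancel₀ hS
  have h8 : (2 * (dbl plog * (w + ng w))) ^ 2 = (w * plog + ng w * ng plog) ^ 2 := by rw [h1]
  have h9 : w * ng w * (w + ng w) * (w + ng w) * (w - ng w) ^ 2 =
      4 * (w * ng w * (plog - ng plog) ^ 2) := by
    have : (w + ng w) * (w + ng w) * (w - ng w) ^ 2 = (w ^ 2 - (ng w) ^ 2) ^ 2 := by ring
    linear_combination (w * ng w) * this - (w * ng w) * (w ^ 2 - (ng w) ^ 2 +
      2 * (plog - ng plog)) * h7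
  rw [h5, h6, tt]
  linear_combination 2 * (w + ng w) * h4 - 4 * h8 - h9 +
    4 * (dbl plog * (w + ng w)) * h1

/-- the defect of T2 -/
noncomputable def dfe : ℚ⟦X⟧ := 4 * tt - (ng w) ^ 2 * (w ^ 2 - (ng w) ^ 2)

theorem ng_dfe : ng dfe = 4 * ng tt - w ^ 2 * ((ng w) ^ 2 - w ^ 2) := by
  rw [dfe]
  simp only [map_sub, map_mul, map_pow, map_ofNat, ng_ng]

theorem dfe_fe2 : 8 * dbl (ng dfe) = dfe + ng dfe := by
  have h1 := ng_dfe
  have h2 : dbl (ng dfe) = 4 * dbl (ng tt) -
      (dbl w) ^ 2 * ((dbl (ng w)) ^ 2 - (dbl w) ^ 2) := by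
    rw [h1]
    simp only [map_sub, map_mul, map_pow, map_ofNat]
  have hW := ag1
  have hV := dbl_ng_w_sq
  have h3 := tt_fe2
  rw [h2, hV, h1, dfe]
  apply mul_left_cancel₀ (ofNat_ne_zero' 8)
  have h4 : 4 * (dbl w) ^ 2 = (w + ng w) ^ 2 := by rw [hW]; ring
  linear_combination 4 * h3 + (4 * (w + ng w) ^ 2 - 16 * (w * ng w) + 16 * (dbl w) ^ 2) * h4

theorem dfe_fe1 : 4 * ((w + ng w) * dbl dfe) = w * dfe + ng w * ng dfe := by
  have h1 := ng_dfe
  have h2 : dbl dfe = 4 * dbl tt -
      (dbl (ng w)) ^ 2 * ((dbl w) ^ 2 - (dbl (ng w)) ^ 2) := by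
    rw [dfe]
    simp only [map_sub, map_mul, map_pow, map_ofNat]
  have hW := ag1
  have hV := dbl_ng_w_sq
  have h3 := tt_fe1
  rw [h2, hV, h1, dfe]
  have h4 : 4 * (dbl w) ^ 2 = (w + ng w) ^ 2 := by rw [hW]; ring
  linear_combination 2 * h3 - (w + ng w) * (w * ng w) * h4

theorem plog_zero : coeff 0 plog = 0 := by
  rw [plog, coeff_mul_zero, coeff_th_zero, zero_mul]

theorem wi_zero : coeff 0 wi = 1 := by
  have h := congrArg (coeff 0) wi_mul
  rw [coeff_mul_zero, w_zero', one_mul] at h
  rw [h]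
  simp

theorem plog_one : coeff 1 plog = 4 := by
  rw [plog, coeff_mul_one, coeff_th_zero, coeff_th_one, wi_zero, w_one]
  norm_num

theorem dfe_eq_zero : dfe = 0 := by
  have key : ∀ n, coeff n dfe = 0 := by
    intro n
    induction n using Nat.strong_induction_on with
    | _ n ih =>
      -- even coefficients
      have heven : ∀ m, coeff (2 * m) dfe = 4 * (-1) ^ m * coeff m dfe := by
        intro m
        have h := congrArg (coeff (2 * m)) dfe_fe2
        rw [coeff_ofNat_mul, coeff_dbl_ng, coeff_add', coeff_ng] at h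
        have : ((-1 : ℚ)) ^ (2 * m) = 1 := by rw [pow_mul]; simp
        rw [this] at h
        linarith
      rcases Nat.even_or_odd n with he | ho
      · obtain ⟨m, rfl⟩ := he.two_dvd
        rcases Nat.eq_zero_or_pos m with hm | hm
        · subst hm
          have h := heven 0
          simp only [mul_zero, pow_zero, mul_one] at h ⊢
          linarith
        · rw [heven m, ih m (by omega), mul_zero]
      · rcases Nat.lt_or_ge n 2 with hn | hn
        · have hn1 : n = 1 := by
            rcases ho with ⟨k, hk⟩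
            omega
          subst hn1
          rw [dfe, tt, coeff_sub', coeff_ofNat_mul]
          simp only [coeff_sub', coeff_mul_zero, coeff_mul_one,
            coeff_th_one, pow_succ, pow_zero, one_mul, plog_zero, plog_one, w_zero', w_one,
            ng_zero, ng_one]
          norm_num
        · have hodd := ho
          rcases ho with ⟨k, hk⟩
          have hn1 : coeff (n + 1) dfe = 0 := by
            have : n + 1 = 2 * (k + 1) := by omega
            rw [this, heven, ih (k + 1) (by omega), mul_zero]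
          have h5 := congrArg (coeff (n + 1)) dfe_fe1
          rw [coeff_ofNat_mul, coeff_add', coeff_mul, coeff_mul, coeff_mul] at h5
          have h6 : ∑ p ∈ Finset.HasAntidiagonal.antidiagonal (n + 1),
              coeff p.1 (w + ng w) * coeff p.2 (dbl dfe) = 0 := by
            refine Finset.sum_eq_zero fun p hp => ?_
            rw [Finset.HasAntidiagonal.mem_antidiagonal] at hp
            rw [coeff_dbl dfe]
            split_ifs with h7
            · rw [ih (p.2 / 2) (by omega), mul_zero]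
            · rw [mul_zero]
          have h8 : ∀ f g : ℚ⟦X⟧, (∀ j < n, coeff j g = 0) → coeff (n + 1) g = 0 →
              ∑ p ∈ Finset.HasAntidiagonal.antidiagonal (n + 1),
                coeff p.1 f * coeff p.2 g = coeff 1 f * coeff n g := by
            intro f g hg hg1
            rw [Finset.sum_eq_single (1, n)]
            · rintro ⟨i, j⟩ hp hne
              rw [Finset.HasAntidiagonal.mem_antidiagonal] at hp
              simp only at hp ⊢
              rcases Nat.lt_or_ge j n with hj | hj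
              · rw [hg j hj, mul_zero]
              · have : j = n + 1 := by
                  by_contra hi
                  apply hne
                  have h1 : i = 1 := by omega
                  have h2 : j = n := by omega
                  rw [h1, h2]
                rw [this, hg1, mul_zero]
            · intro h
              exfalso
              apply h
              rw [Finset.HasAntidiagonal.mem_antidiagonal]
              show 1 + n = n + 1
              omega
          rw [h6, h8 w dfe ih hn1, h8 (ng w) (ng dfe) (fun j hj => by rw [coeff_ng, ih j hj, mul_zero])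
            (by rw [coeff_ng, hn1, mul_zero]), ng_one, w_one, coeff_ng dfe n,
            hodd.neg_one_pow] at h5
          linarith
  ext n
  rw [key n, map_zero]

/-- T2 -/
theorem t2 : 4 * tt = (ng w) ^ 2 * (w ^ 2 - (ng w) ^ 2) := by
  have := dfe_eq_zero
  rw [dfe] at this
  exact sub_eq_zero.1 this

/-! ### The statement -/

theorem eight_w_u : 8 * (w * u) = w - ng w := by
  have h1 : (8 : ℚ⟦X⟧) * C (1 / 8 : ℚ) = 1 := by
    rw [show (8 : ℚ⟦X⟧) = C (8 : ℚ) from (map_ofNat C 8).symm, ← map_mul]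
    norm_num
  rw [u]
  linear_combination (w * (w - ng w) * wi) * h1 + (w - ng w) * wi_mul

theorem ng_w_u : ng w = w * (1 - 8 * u) := by
  linear_combination eight_w_u

theorem th_u_thm : th u = u * (1 - 4 * u) * (1 - 8 * u) * w ^ 2 := by
  have h1 := congrArg th eight_w_u
  rw [th_mul, th_mul, th_eight, map_sub, ← w_mul_plog, ← ng_w_mul_plog] at h1
  have h2 := plog_sub
  have h3 := ng_w_u
  have h4 : 16 * (w * th u) = ng w * (w ^ 2 - (ng w) ^ 2) := by
    linear_combination 2 * h1 + ng w * h2 - 2 * plog * h3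
  apply mul_left_cancel₀ (mul_ne_zero (ofNat_ne_zero' 16) w_ne)
  rw [h3] at h4
  linear_combination h4

theorem th_wi : th wi = -(wi * plog) := by
  have h1 := congrArg th wi_mul
  rw [th_mul, Derivation.map_one_eq_zero, ← w_mul_plog] at h1
  apply mul_left_cancel₀ w_ne
  linear_combination h1

theorem zt_eq : zt = plog * wi ^ 2 := by
  rw [zt, plog]
  ring

theorem th_zt_thm : th zt = w ^ 2 * (4 * u * (1 - 4 * u) * (1 - 8 * u) ^ 2 - zt ^ 2) := by
  have h0 := t2
  have h1 : 4 * tt = 4 * (w ^ 4 * (4 * u * (1 - 4 * u) * (1 - 8 * u) ^ 2)) := by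
    rw [h0, ng_w_u]
    ring
  have h2 : tt = w ^ 4 * (4 * u * (1 - 4 * u) * (1 - 8 * u) ^ 2) :=
    mul_left_cancel₀ (ofNat_ne_zero' 4) h1
  have h3 : th zt = wi ^ 2 * (tt - plog ^ 2) := by
    rw [zt_eq, sq, th_mul, th_mul, th_wi, tt]
    ring
  rw [h3, h2, zt_eq]
  have h4 := wi_mul
  have h5 : w ^ 2 * wi ^ 2 = 1 := by
    rw [← mul_pow, h4, one_pow]
  linear_combination ((4 * u * (1 - 4 * u) * (1 - 8 * u) ^ 2) * w ^ 2 - plog ^ 2 * wi ^ 2 * 0 +
    plog ^ 2 * wi ^ 2) * h5

theorem ng_u_thm : ng u * (1 - 8 * u) = -u := by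
  have h1 : 8 * (ng w * ng u) = ng w - w := by
    have := congrArg ng eight_w_u
    simp only [map_sub, map_mul, map_ofNat, ng_ng] at this
    exact this
  apply mul_left_cancel₀ (mul_ne_zero (ofNat_ne_zero' 8) w_ne)
  have h2 := ng_w_u
  rw [h2] at h1
  linear_combination h1

/-! ### Integrality -/

theorem mem_IntSer {f : ℚ⟦X⟧} : f ∈ IntSer ↔ ∀ n, ∃ m : ℤ, coeff n f = m := by
  constructor
  · rintro ⟨g, rfl⟩ n
    exact ⟨coeff n g, by simp⟩
  · intro h
    choose m hm using h
    refine ⟨PowerSeries.mk m, ?_⟩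
    ext n
    simp [hm]

theorem phi_int : phi ∈ IntSer := by
  rw [mem_IntSer]
  intro n
  rw [phi, coeff_mk]
  split_ifs
  · exact ⟨1, by simp⟩
  · exact ⟨2, by simp⟩
  · exact ⟨0, by simp⟩

theorem oph_int : oph ∈ IntSer := by
  rw [mem_IntSer]
  intro n
  rw [oph, coeff_mk]
  split_ifs
  · exact ⟨1, by simp⟩
  · exact ⟨0, by simp⟩

theorem dbl_int {f : ℚ⟦X⟧} (h : f ∈ IntSer) : dbl f ∈ IntSer := by
  rw [mem_IntSer] at *
  intro n
  rw [coeff_dbl]
  split_ifs
  · exact h _
  · exact ⟨0, by simp⟩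

theorem th_int {f : ℚ⟦X⟧} (h : f ∈ IntSer) : th f ∈ IntSer := by
  rw [mem_IntSer] at *
  intro n
  obtain ⟨m, hm⟩ := h n
  rw [coeff_th, hm]
  exact ⟨n * m, by push_cast; ring⟩

theorem w_int_thm : w ∈ IntSer := IntSer.pow_mem phi_int 2

theorem wi_int_thm : wi ∈ IntSer := by
  obtain ⟨g, hg⟩ := w_int_thm
  have hg0 : constantCoeff g = ((1 : ℤˣ) : ℤ) := by
    have h1 := w_zero'
    rw [← hg] at h1
    simp only [coeff_map, eq_intCast] at h1
    rw [← coeff_zero_eq_constantCoeff_apply]
    have h2 : coeff 0 g = 1 := by exact_mod_cast h1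
    rw [h2]
    rfl
  have h2 := PowerSeries.mul_invOfUnit g 1 hg0
  refine ⟨PowerSeries.invOfUnit g 1, ?_⟩
  apply mul_left_cancel₀ w_ne
  rw [wi_mul]
  conv_lhs => rw [← hg]
  rw [← map_mul, h2, map_one]

theorem u_int_thm : u ∈ IntSer := by
  have h : u = dbl (dbl phi) * oph * wi := by
    apply mul_left_cancel₀ (mul_ne_zero (ofNat_ne_zero' 8) w_ne)
    have h1 := eight_w_u
    have h2 : w = (dbl (dbl phi) + 2 * oph) ^ 2 := by rw [← phi_eq, w]
    have h3 : ng w = (dbl (dbl phi) - 2 * oph) ^ 2 := by rw [← ng_phi_eq, ng_w_eq]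
    have h4 : w - ng w = 8 * (dbl (dbl phi) * oph) := by
      linear_combination h2 - h3
    linear_combination h1 + h4 - 8 * (dbl (dbl phi) * oph) * wi_mul
  rw [h]
  exact IntSer.mul_mem (IntSer.mul_mem (dbl_int (dbl_int phi_int)) oph_int) wi_int_thm

theorem zt_int_thm : zt ∈ IntSer :=
  IntSer.mul_mem (th_int w_int_thm) (IntSer.pow_mem wi_int_thm 3)

theorem u_zero_thm : coeff 0 u = 0 := by
  have h := congrArg (coeff 0) eight_w_u
  rw [coeff_ofNat_mul, coeff_mul_zero, coeff_sub', ng_zero, w_zero'] at h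
  linarith

theorem u_one_thm : coeff 1 u = 1 := by
  have h := congrArg (coeff 1) eight_w_u
  rw [coeff_ofNat_mul, coeff_mul_one, coeff_sub', ng_one, w_zero', w_one, u_zero_thm] at h
  linarith

/-- Statement THETA. -/
theorem theta_holds : Theta where
  th_u := th_u_thm
  th_zt := th_zt_thm
  ng_w := ng_w_u
  ng_u := ng_u_thm
  u_zero := u_zero_thm
  u_one := u_one_thm
  w_zero := w_zero'
  w_int := w_int_thm
  wi_int := wi_int_thm
  u_int := u_int_thm
  zt_int := zt_int_thm

end H809.OD
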