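import Pool.Agent.Run7.h809.OD.Defs

/-!
# THETA: the identities between the theta functions `φ`, `φ(-q)`, `φ(q²)`

The statement is `H809.OD.Theta` (project of helper809).
-/

set_option autoImplicit false

open PowerSeries

namespace H809.OD

/-! ### Coefficients of the basic operations -/

theorem coeff_ng (f : ℚ⟦X⟧) (n : ℕ) : coeff n (ng f) = (-1) ^ n * coeff n f := by
  simp [ng, coeff_rescale]

theorem coeff_dbl (f : ℚ⟦X⟧) (n : ℕ) :
    coeff n (dbl f) = if 2 ∣ n then coeff (n / 2) f else 0 := by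
  simp [dbl, PowerSeries.coeff_expand]

theorem coeff_dbl_even (f : ℚ⟦X⟧) (n : ℕ) : coeff (2 * n) (dbl f) = coeff n f := by
  rw [coeff_dbl, if_pos (Dvd.intro n rfl)]
  congr 2
  omega

theorem coeff_dbl_odd (f : ℚ⟦X⟧) {n : ℕ} (h : ¬ 2 ∣ n) : coeff n (dbl f) = 0 := by
  rw [coeff_dbl, if_neg h]

theorem coeff_th (f : ℚ⟦X⟧) (n : ℕ) : coeff n (th f) = n * coeff n f := by
  have h : th f = X * PowerSeries.derivative ℚ f := rfl
  rw [h]
  cases n with
  | zero => simp
  | succ n =>
    rw [coeff_succ_X_mul, PowerSeries.coeff_derivative]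
    push_cast
    ring

theorem th_ng (f : ℚ⟦X⟧) : th (ng f) = ng (th f) := by
  ext n
  simp only [coeff_th, coeff_ng]
  ring

theorem th_dbl (f : ℚ⟦X⟧) : th (dbl f) = 2 * dbl (th f) := by
  ext n
  have h2 : (2 : ℚ⟦X⟧) = C (2 : ℚ) := (map_ofNat C 2).symm
  rw [coeff_th, h2, coeff_C_mul, coeff_dbl, coeff_dbl]
  split_ifs with h
  · obtain ⟨m, rfl⟩ := h
    rw [coeff_th]
    have : 2 * m / 2 = m := by omega
    rw [this]
    push_cast
    ring
  · simp

theorem ng_ng (f : ℚ⟦X⟧) : ng (ng f) = f := by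
  ext n
  simp only [coeff_ng]
  rw [← mul_assoc, ← mul_pow]
  simp

theorem ng_dbl (f : ℚ⟦X⟧) : ng (dbl f) = dbl f := by
  ext n
  rw [coeff_ng, coeff_dbl]
  split_ifs with h
  · obtain ⟨m, rfl⟩ := h
    simp [pow_mul]
  · simp

theorem coeff_dbl_ng (f : ℚ⟦X⟧) (n : ℕ) :
    coeff (2 * n) (dbl (ng f)) = (-1) ^ n * coeff n f := by
  rw [coeff_dbl_even, coeff_ng]

/-! ### Sums of two squares -/

/-- the coefficients of `φ` count the square roots -/
theorem coeff_phi (N i : ℕ) (h : i ≤ N) :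
    coeff i phi = ∑ a ∈ Finset.Icc (-(N : ℤ)) N, if a ^ 2 = (i : ℤ) then (1 : ℚ) else 0 := by
  rw [phi, coeff_mk]
  rw [Finset.sum_boole]
  rcases Nat.eq_zero_or_pos i with hi | hi
  · subst hi
    have : (Finset.Icc (-(N : ℤ)) N).filter (fun a => a ^ 2 = ((0 : ℕ) : ℤ)) = {0} := by
      ext a
      simp only [Finset.mem_filter, Finset.mem_Icc, Finset.mem_singleton]
      constructor
      · rintro ⟨_, h⟩
        simpa using h
      · rintro rfl
        simp
    rw [this]
    simp
  · rw [if_neg (by omega)]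
    split_ifs with hs
    · obtain ⟨k, rfl⟩ := hs
      have hk : 0 < k := by
        rcases Nat.eq_zero_or_pos k with h0 | h0
        · subst h0; simp at hi
        · exact h0
      have hkN : k ≤ N := le_trans (Nat.le_mul_self k) h
      have : (Finset.Icc (-(N : ℤ)) N).filter (fun a => a ^ 2 = ((k * k : ℕ) : ℤ)) =
          {(k : ℤ), -(k : ℤ)} := by
        ext a
        simp only [Finset.mem_filter, Finset.mem_Icc, Finset.mem_insert, Finset.mem_singleton]
        constructor
        · rintro ⟨_, h⟩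
          have : a ^ 2 = (k : ℤ) ^ 2 := by rw [h]; push_cast; ring
          exact sq_eq_sq_iff_eq_or_eq_neg.1 this
        · rintro (rfl | rfl)
          · refine ⟨⟨by omega, by omega⟩, by push_cast; ring⟩
          · refine ⟨⟨by omega, by omega⟩, by push_cast; ring⟩
      rw [this, Finset.card_pair (by omega)]
      norm_num
    · have : (Finset.Icc (-(N : ℤ)) N).filter (fun a => a ^ 2 = (i : ℤ)) = ∅ := by
        rw [Finset.filter_eq_empty_iff]
        rintro a _ h
        apply hs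
        refine ⟨a.natAbs, ?_⟩
        have h1 : ((a.natAbs * a.natAbs : ℕ) : ℤ) = (i : ℤ) := by
          rw [Int.natAbs_mul_self]
          rw [← h]; ring
        exact_mod_cast h1.symm
      rw [this]
      simp

/-- the number of ways of writing `n` as a sum of two squares of absolute value at most `N` -/
noncomputable def box (N : ℕ) : Finset (ℤ × ℤ) :=
  Finset.Icc (-(N : ℤ)) N ×ˢ Finset.Icc (-(N : ℤ)) N

theorem coeff_w (N n : ℕ) (h : n ≤ N) :
    coeff n w = (((box N).filter fun p : ℤ × ℤ => p.1 ^ 2 + p.2 ^ 2 = (n : ℤ)).card : ℚ) := by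
  rw [w, sq, coeff_mul]
  have h1 : ∀ x ∈ Finset.HasAntidiagonal.antidiagonal n, coeff x.1 phi * coeff x.2 phi =
      ∑ p ∈ box N, if p.1 ^ 2 = (x.1 : ℤ) ∧ p.2 ^ 2 = (x.2 : ℤ) then (1 : ℚ) else 0 := by
    intro x hx
    rw [Finset.HasAntidiagonal.mem_antidiagonal] at hx
    rw [coeff_phi N x.1 (by omega), coeff_phi N x.2 (by omega), Finset.sum_mul_sum, box,
      Finset.sum_product]
    refine Finset.sum_congr rfl fun a _ => Finset.sum_congr rfl fun b _ => ?_
    by_cases ha : a ^ 2 = (x.1 : ℤ) <;> by_cases hb : b ^ 2 = (x.2 : ℤ) <;> simp [ha, hb]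
  rw [Finset.sum_congr rfl h1, Finset.sum_comm, ← Finset.sum_boole]
  refine Finset.sum_congr rfl fun p _ => ?_
  rw [Finset.sum_boole]
  split_ifs with hp
  · have h2 : (Finset.HasAntidiagonal.antidiagonal n).filter
        (fun x : ℕ × ℕ => p.1 ^ 2 = (x.1 : ℤ) ∧ p.2 ^ 2 = (x.2 : ℤ)) =
        {((p.1 ^ 2).toNat, (p.2 ^ 2).toNat)} := by
      ext x
      simp only [Finset.mem_filter, Finset.HasAntidiagonal.mem_antidiagonal, Finset.mem_singleton, Prod.ext_iff]
      have e1 := sq_nonneg p.1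
      have e2 := sq_nonneg p.2
      constructor
      · rintro ⟨_, h1, h2⟩
        constructor <;> omega
      · rintro ⟨h1, h2⟩
        refine ⟨by omega, by omega, by omega⟩
    rw [h2]
    simp
  · have h2 : (Finset.HasAntidiagonal.antidiagonal n).filter
        (fun x : ℕ × ℕ => p.1 ^ 2 = (x.1 : ℤ) ∧ p.2 ^ 2 = (x.2 : ℤ)) = ∅ := by
      rw [Finset.filter_eq_empty_iff]
      rintro x hx ⟨h1, h2⟩
      rw [Finset.HasAntidiagonal.mem_antidiagonal] at hx
      apply hp
      rw [h1, h2]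
      exact_mod_cast hx
    rw [h2]
    simp

theorem coeff_w_two_mul (m : ℕ) : coeff (2 * m) w = coeff m w := by
  rw [coeff_w (2 * m) (2 * m) le_rfl, coeff_w (2 * m) m (by omega)]
  congr 1
  symm
  refine Finset.card_bij' (fun p _ => (p.1 + p.2, p.1 - p.2))
    (fun p _ => ((p.1 + p.2) / 2, (p.1 - p.2) / 2)) ?_ ?_ ?_ ?_
  · rintro ⟨c, d⟩ h
    simp only [box, Finset.mem_filter, Finset.mem_product, Finset.mem_Icc] at h ⊢
    obtain ⟨_, h⟩ := h
    have h3 : (c + d) ^ 2 + (c - d) ^ 2 = ((2 * m : ℕ) : ℤ) := by push_cast; rw [← h]; ring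
    refine ⟨⟨?_, ?_⟩, h3⟩
    · have := sq_nonneg (c - d)
      have := Int.le_self_sq (c + d)
      have := Int.le_self_sq (-(c + d))
      have e : (-(c + d)) ^ 2 = (c + d) ^ 2 := by ring
      omega
    · have := sq_nonneg (c + d)
      have := Int.le_self_sq (c - d)
      have := Int.le_self_sq (-(c - d))
      have e : (-(c - d)) ^ 2 = (c - d) ^ 2 := by ring
      omega
  · rintro ⟨a, b⟩ h
    simp only [box, Finset.mem_filter, Finset.mem_product, Finset.mem_Icc] at h ⊢
    obtain ⟨_, h⟩ := h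
    have hpar : Even (a + b) := by
      have h4 : Even (a ^ 2 + b ^ 2) := by rw [h]; push_cast; exact even_two_mul _
      rw [Int.even_add, Int.even_pow' two_ne_zero, Int.even_pow' two_ne_zero] at h4
      rw [Int.even_add]
      exact h4
    obtain ⟨c, hc⟩ := hpar
    have e1 : (a + b) / 2 = c := by omega
    have e2 : (a - b) / 2 = c - b := by omega
    rw [e1, e2]
    have ha : a = 2 * c - b := by omega
    subst ha
    have h3 : c ^ 2 + (c - b) ^ 2 = (m : ℤ) := by push_cast at h; nlinarith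
    refine ⟨⟨?_, ?_⟩, h3⟩
    · have := sq_nonneg (c - b)
      have := Int.le_self_sq c
      have := Int.le_self_sq (-c)
      have e : (-c) ^ 2 = c ^ 2 := by ring
      push_cast
      omega
    · have := sq_nonneg c
      have := Int.le_self_sq (c - b)
      have := Int.le_self_sq (-(c - b))
      have e : (-(c - b)) ^ 2 = (c - b) ^ 2 := by ring
      push_cast
      omega
  · rintro ⟨c, d⟩ _
    simp only [Prod.mk.injEq]
    constructor <;> omega
  · rintro ⟨a, b⟩ h
    simp only [box, Finset.mem_filter, Finset.mem_product, Finset.mem_Icc] at h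
    obtain ⟨_, h⟩ := h
    have hpar : Even (a + b) := by
      have h4 : Even (a ^ 2 + b ^ 2) := by rw [h]; push_cast; exact even_two_mul _
      rw [Int.even_add, Int.even_pow' two_ne_zero, Int.even_pow' two_ne_zero] at h4
      rw [Int.even_add]
      exact h4
    obtain ⟨c, hc⟩ := hpar
    simp only [Prod.mk.injEq]
    constructor <;> omega

/-- AG1: `w(q) + w(-q) = 2 w(q²)` -/
theorem ag1 : w + ng w = 2 * dbl w := by
  ext n
  have h2 : (2 : ℚ⟦X⟧) = C (2 : ℚ) := (map_ofNat C 2).symm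
  rw [map_add, coeff_ng, h2, coeff_C_mul, coeff_dbl]
  split_ifs with h
  · obtain ⟨m, rfl⟩ := h
    have : 2 * m / 2 = m := by omega
    rw [this, coeff_w_two_mul]
    simp [pow_mul]
    ring
  · have : Odd n := by rwa [← Nat.not_even_iff_odd, even_iff_two_dvd]
    rw [this.neg_one_pow]
    ring

/-- the odd half of `φ` -/
noncomputable def oph : ℚ⟦X⟧ :=
  PowerSeries.mk fun n => if n % 2 = 1 ∧ IsSquare n then 1 else 0

theorem phi_eq : phi = dbl (dbl phi) + 2 * oph := by
  ext n
  have h2 : (2 : ℚ⟦X⟧) = C (2 : ℚ) := (map_ofNat C 2).symm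
  rw [map_add, h2, coeff_C_mul, coeff_dbl, oph, coeff_mk]
  rcases Nat.even_or_odd n with he | ho
  · rw [if_pos he.two_dvd, if_neg (by rw [Nat.even_iff] at he; omega)]
    obtain ⟨m, rfl⟩ := he.two_dvd
    have hm : 2 * m / 2 = m := by omega
    rw [hm, coeff_dbl]
    by_cases h4 : 2 ∣ m
    · rw [if_pos h4]
      obtain ⟨k, rfl⟩ := h4
      have hk : 2 * k / 2 = k := by omega
      rw [hk, phi, coeff_mk, coeff_mk]
      have h1 : (2 * (2 * k) = 0) ↔ (k = 0) := by omega
      have h5 : IsSquare (2 * (2 * k)) ↔ IsSquare k := by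
        constructor
        · rintro ⟨r, hr⟩
          have hr2 : 2 ∣ r := by
            have : 2 ∣ r * r := ⟨2 * k, hr.symm⟩
            exact (Nat.prime_two.dvd_mul.1 this).elim id id
          obtain ⟨s, rfl⟩ := hr2
          exact ⟨s, by nlinarith⟩
        · rintro ⟨r, rfl⟩
          exact ⟨2 * r, by ring⟩
      simp only [h1, h5]
      ring
    · rw [if_neg h4, phi, coeff_mk, if_neg (by omega), if_neg]
      · ring
      rintro ⟨r, hr⟩
      have hr2 : 2 ∣ r := by
        have : 2 ∣ r * r := ⟨m, hr.symm⟩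
        exact (Nat.prime_two.dvd_mul.1 this).elim id id
      obtain ⟨s, rfl⟩ := hr2
      apply h4
      exact ⟨s * s, by nlinarith⟩
  · have hnd : ¬ 2 ∣ n := by
      rw [Nat.odd_iff] at ho
      omega
    rw [if_neg hnd, phi, coeff_mk, if_neg (by rintro rfl; simp at ho)]
    have : n % 2 = 1 := Nat.odd_iff.1 ho
    simp only [this, true_and]
    split_ifs <;> ring

theorem ng_oph : ng oph = -oph := by
  ext n
  rw [coeff_ng, map_neg, oph, coeff_mk]
  split_ifs with h
  · have : Odd n := Nat.odd_iff.2 h.1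
    rw [this.neg_one_pow]
    ring
  · simp

theorem ng_phi_eq : ng phi = dbl (dbl phi) - 2 * oph := by
  conv_lhs => rw [phi_eq]
  rw [map_add, map_mul, ng_dbl, ng_oph, map_ofNat]
  ring

theorem ng_w_eq : ng w = (ng phi) ^ 2 := by rw [w, map_pow]

/-- AG2: `φ(q) φ(-q) = w(-q²)` -/
theorem ag2 : phi * ng phi = dbl (ng w) := by
  have h1 := congrArg dbl ag1
  rw [map_add, map_mul, map_ofNat] at h1
  have h2 : dbl (dbl w) = (dbl (dbl phi)) ^ 2 := by rw [w, map_pow, map_pow]
  have h3 := ag1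
  have h4 : w = (dbl (dbl phi) + 2 * oph) ^ 2 := by rw [← phi_eq, w]
  have h5 : ng w = (dbl (dbl phi) - 2 * oph) ^ 2 := by rw [← ng_phi_eq, ng_w_eq]
  have h6 : phi * ng phi = (dbl (dbl phi) + 2 * oph) * (dbl (dbl phi) - 2 * oph) := by
    rw [← phi_eq, ← ng_phi_eq]
  rw [h6]
  rw [h2] at h1
  have h7 : (2 : ℚ⟦X⟧) ≠ 0 := by
    have : (2 : ℚ⟦X⟧) = C (2 : ℚ) := (map_ofNat C 2).symm
    rw [this, Ne, map_eq_zero_iff _ PowerSeries.C_injective]
    norm_num
  apply mul_left_cancel₀ h7
  have h8 : dbl (ng w) = 2 * (dbl (dbl phi)) ^ 2 - dbl w := by linear_combination h1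
  rw [h8]
  have h9 : 2 * dbl w = (dbl (dbl phi) + 2 * oph) ^ 2 + (dbl (dbl phi) - 2 * oph) ^ 2 := by
    rw [← h4, ← h5, ← h3]
  linear_combination h9

end H809.OD
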